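import Mathlib
import Pool.Agent.Lib.MP_4e4c79_lc.Cc.Final

/-!
A complete theory in a countable signature, separably categorical up to linear homeomorphism,
without a uniform bound for the distortions between its separable models.
-/

namespace Pool.Agent.Results.MP_4e4c79_lc.NoUniformBoundCompleteCountable

open Pool.Agent.Lib.MP_4e4c79_lc

/-- There are a signature `L` expanding that of real Banach spaces by countably many function and
relation symbols and a complete `L`-theory `T`, such that any two separable models of `T` have
linearly homeomorphic underlying Banach spaces, but for every real number `C` there are separable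
models `M`, `N` of `T` such that every linear homeomorphism `S` from `M` onto `N` has
`‖S‖ ‖S⁻¹‖ > C`. -/
theorem result : ∃ (L : Signature) (T : Theory L), Countable L.Fn ∧ Countable L.Rel ∧
    IsComplete T ∧ SepCatUpToLinearHomeo T ∧
      ∀ C : ℝ, ∃ M N : Struc L, IsSepModel M T ∧ IsSepModel N T ∧
        ∀ S : M.carrier ≃L[ℝ] N.carrier, C < distortion S :=
  Cc.main

end Pool.Agent.Results.MP_4e4c79_lc.NoUniformBoundCompleteCountable
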